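import Mathlib

namespace Pool.Agent.H.MP_ce2681_lc

open Relation

variable {Φ : Type} (par : ℕ → ℕ) (X : ℕ → Φ → Φ → Prop) (w : Φ → ℕ)

inductive Tr (i u : ℕ) (α : Φ) : ℕ → Φ → (ℕ → Multiset (Φ × Φ)) → ℕ → ℕ → Prop
  | nil : Tr i u α u α 0 0 0
  | loop {v φ M c k} (ψ) : Tr i u α v φ M c k → Tr i u α v ψ (M + Pi.single v {(φ, ψ)}) c (k + 1)
  | down {v φ ψ M c k} : Tr i u α (par v) φ M c k → 0 < v → v < i → X v φ ψ → Tr i u α v ψ M (c + w φ) (k + 1)
  | up {v φ ψ M c k} : Tr i u α v φ M c k → 0 < v → v < i → X v φ ψ → Tr i u α (par v) ψ M (c + w ψ) (k + 1)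

def Cs (a b : Multiset (Φ × Φ) × Φ) : Prop := b.1 = a.1 + {(a.2, b.2)}
def Ch (φ : Φ) (A : Multiset (Φ × Φ)) (ψ : Φ) : Prop := ReflTransGen Cs (0, φ) (A, ψ)
def Es (j : ℕ) (a b : Multiset (Φ × Φ) × Multiset (Φ × Φ)) : Prop :=
  ∃ α β γ δ, X j α β ∧ X j γ δ ∧ b.2 = a.2 + {(α, δ)} ∧ ∃ A, Ch β A γ ∧ b.1 = a.1 + A
def Ex (j : ℕ) (A N : Multiset (Φ × Φ)) : Prop := ReflTransGen (Es X j) (0, 0) (A, N)
def wt (N : Multiset (Φ × Φ)) : ℕ := (N.map fun l => w l.1 + w l.2).sum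
def St (i : ℕ) (T : Set (ℕ × Multiset (Φ × Φ) × ℕ)) (v : ℕ) (M : Multiset (Φ × Φ)) (a : ℕ) : Prop :=
  v ≠ par i ∧ (v, M, a) ∈ T ∨ v = par i ∧ ∃ y ∈ T, ∃ z ∈ T, y.1 = v ∧ z.1 = i ∧ ∃ N, Ex X i z.2.1 N ∧ M = y.2.1 + N ∧
    a = y.2.2 + z.2.2 + wt w N
def J (α β : Φ) (t i : ℕ) (T : Set (ℕ × Multiset (Φ × Φ) × ℕ)) (K : ℕ → Prop) : Prop := ∃ M, ∃ a : ℕ → ℕ, ∃ c k, K k ∧
  (∀ v < i, (v, M v, a v) ∈ T) ∧ Tr par X w i 0 α 0 β M c k ∧ c + ∑ v ∈ Finset.range i, a v ≤ t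

variable {par X w} {i u v v' : ℕ} {α β φ ψ : Φ} {M M' : ℕ → Multiset (Φ × Φ)} {c c' k k' : ℕ} {A N : Multiset (Φ × Φ)}

theorem Tr.trans (h : Tr par X w i u α v φ M c k) (g : Tr par X w i v φ v' ψ M' c' k') :
    Tr par X w i u α v' ψ (M + M') (c + c') (k + k') := by
  induction g with
  | nil => simpa using h
  | loop ψ _ ih => rw [← add_assoc]; exact ih.loop ψ
  | down _ a b d ih => rw [← add_assoc]; exact ih.down a b d
  | up _ a b d ih => rw [← add_assoc]; exact ih.up a b d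

theorem Tr.succ (h : Tr par X w i u α v φ M c k) : Tr par X w (i + 1) u α v φ M c k := by
  induction h with
  | nil => exact .nil
  | loop ψ _ ih => exact ih.loop ψ
  | down _ a b d ih => exact ih.down a (by omega) d
  | up _ a b d ih => exact ih.up a (by omega) d

theorem Tr.lt (hp : ∀ v, 0 < v → v < i → par v < v) (hu : u < i) (h : Tr par X w i u α v φ M c k) : v < i ∧ M i = 0 := by
  induction h with
  | nil => exact ⟨hu, rfl⟩
  | loop ψ _ ih => exact ⟨ih.1, by simp [ih.2, ih.1.ne']⟩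
  | down _ a b d ih => exact ⟨b, ih.2⟩
  | up _ a b d ih => exact ⟨(hp _ a b).trans b, ih.2⟩

theorem Tr.card (h : Tr par X w i u α v φ M c k) (z) : (M z).card ≤ k := by
  induction h with
  | nil => simp
  | @loop v _ _ _ _ ψ _ ih => by_cases e : z = v <;> simp [e] <;> [exact e ▸ ih; omega]
  | down _ a b d ih => omega
  | up _ a b d ih => omega

theorem Ch.tr (h : Ch φ A ψ) : ∃ k, Tr par X w i v φ v ψ (Pi.single v A) 0 k := by
  unfold Ch at h
  generalize e : (A, ψ) = z at h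
  induction h generalizing A ψ with
  | refl => cases e; exact ⟨0, by simpa using .nil⟩
  | tail _ b ih => subst e; obtain ⟨k, ih⟩ := ih rfl; exact ⟨_, by rw [show A = _ from b, Pi.single_add]; exact ih.loop ψ⟩

theorem Tr.split {q l} (h : Tr par X w i u α v φ M c k) (e : l ∈ M q) : ∃ M₁ M₂ c₁ c₂ k₁ k₂, Tr par X w i u α q l.1 M₁ c₁ k₁ ∧
    Tr par X w i q l.2 v φ M₂ c₂ k₂ ∧ M = M₁ + M₂ + Pi.single q {l} ∧ c = c₁ + c₂ := by
  induction h with
  | nil => simp at e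
  | @loop v φ M c k ψ h ih =>
    rcases Multiset.mem_add.1 e with e | e
    · obtain ⟨_, _, _, _, _, _, a, b, rfl, rfl⟩ := ih e
      exact ⟨_, _, _, _, _, _, a, b.loop ψ, by abel, rfl⟩
    · obtain rfl : q = v := by_contra fun n => by simp [n] at e
      obtain rfl : l = (φ, ψ) := by simpa using e
      exact ⟨_, _, _, _, _, _, h, .nil, by simp, rfl⟩
  | down _ a b d ih =>
    obtain ⟨_, _, _, _, _, _, f, g, rfl, rfl⟩ := ih e
    exact ⟨_, _, _, _, _, _, f, g.down a b d, rfl, add_assoc ..⟩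
  | up _ a b d ih =>
    obtain ⟨_, _, _, _, _, _, f, g, rfl, rfl⟩ := ih e
    exact ⟨_, _, _, _, _, _, f, g.up a b d, rfl, add_assoc ..⟩

theorem glue (hi : 0 < i) (e : Ex X i A N) (h : Tr par X w (i + 1) u α v φ (M + Pi.single (par i) N) c k) :
    ∃ k, Tr par X w (i + 1) u α v φ (M + Pi.single i A) (c + wt w N) k := by
  unfold Ex at e
  generalize f : (A, N) = z at e
  induction e generalizing A N M c k with
  | refl => cases f; exact ⟨k, by simpa [wt] using h⟩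
  | @tail z _ _ b ih =>
    subst f
    obtain ⟨a, b, d, e, x1, x2, rfl, B, x3, rfl⟩ := b
    obtain ⟨M₁, M₂, c₁, c₂, _, _, t1, t2, t3, rfl⟩ := h.split (q := par i) (l := (a, e)) (by simp)
    obtain ⟨_, t4⟩ := x3.tr (par := par) (X := X) (w := w) (i := i + 1) (v := i)
    rw [Pi.single_add, ← add_assoc, add_left_inj] at t3
    obtain ⟨k, t⟩ := ih (M := M + Pi.single i B) (A := z.1) (N := z.2) (by
      rw [add_right_comm, t3, add_right_comm]
      exact (((t1.down hi i.lt_succ_self x1).trans t4).up hi i.lt_succ_self x2).trans t2) rfl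
    refine ⟨k, ?_⟩
    rw [Pi.single_add, ← add_assoc, add_right_comm,
      show c₁ + c₂ + wt w (z.2 + {(a, e)}) = c₁ + w a + 0 + w e + c₂ + wt w z.2 by simp [wt]; ring]
    exact t

theorem cut (hp : ∀ v, 0 < v → v < i + 1 → par v < v) (hu : u < i) (h : Tr par X w (i + 1) u α v φ M c k) :
    ∃ N M' c' k', k' ≤ k ∧ (∀ z < i, M' z = (M + Pi.single (par i) N : ℕ → _) z) ∧
      (v ≠ i ∧ Ex X i (M i) N ∧ Tr par X w i u α v φ M' c' k' ∧ c = c' + wt w N ∨ v = i ∧ ∃ A B a b, M i = A + B ∧ Ex X i A N ∧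
        X i a b ∧ Ch b B φ ∧ Tr par X w i u α (par i) a M' c' k' ∧ c = c' + wt w N + w a) := by
  induction h with
  | nil => exact ⟨0, 0, 0, 0, le_rfl, by simp, .inl ⟨hu.ne, .refl, .nil, rfl⟩⟩
  | @loop v φ M c k ψ _ ih =>
    obtain ⟨N, M', c', k', a, b, ⟨d, e, f, g⟩ | ⟨rfl, A, B, _, _, d, e, f, g, j⟩⟩ := ih
    · exact ⟨N, _, c', _, by omega, fun z l => by rw [add_right_comm, Pi.add_apply, b z l]; rfl,
        .inl ⟨d, by simpa [d.symm] using e, f.loop ψ, g⟩⟩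
    · exact ⟨N, M', c', k', by omega, fun z l => by simp [b z l, l.ne], .inr ⟨rfl, A, B + {(φ, ψ)}, _, _, by simp [d, add_assoc],
        e, f, g.tail rfl, j⟩⟩
  | @down v φ ψ M c k _ l m n ih =>
    have := hp v l m
    obtain ⟨N, M', c', k', a, b, ⟨d, e, f, g⟩ | ⟨d, -⟩⟩ := ih
    · by_cases o : v = i
      · subst o
        exact ⟨N, M', c', k', by omega, b, .inr ⟨rfl, _, 0, φ, ψ, by simp, e, n, .refl, f, by omega⟩⟩
      · exact ⟨N, M', _, _, by omega, b, .inl ⟨o, e, f.down l (by omega) n, by omega⟩⟩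
    · omega
  | @up v φ ψ M c k _ l m n ih =>
    have := hp v l m
    obtain ⟨N, M', c', k', a, b, ⟨d, e, f, g⟩ | ⟨rfl, A, B, x, y, d, e, f, g, j, o⟩⟩ := ih
    · exact ⟨N, M', _, _, by omega, b, .inl ⟨by omega, e, f.up l (by omega) n, by omega⟩⟩
    · exact ⟨N + {(x, ψ)}, _, c', _, by omega, fun z l => by rw [Pi.single_add, ← add_assoc, Pi.add_apply, b z l]; rfl,
        .inl ⟨this.ne, e.tail ⟨x, y, φ, ψ, f, n, rfl, B, g, d⟩, j.loop ψ, by simp [wt] at o ⊢; omega⟩⟩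

theorem Tr.one (h : Tr par X w 1 0 α v φ M c k) : v = 0 ∧ Ch α (M 0) φ := by
  induction h with
  | nil => exact ⟨rfl, .refl⟩
  | loop ψ _ ih => exact ⟨ih.1, ih.2.tail (by simp [Cs, ih.1])⟩
  | down => omega
  | up => omega

theorem dp {n t B : ℕ} (hp : ∀ v, 0 < v → v < n → par v < v) (T : ℕ → Set (ℕ × Multiset (Φ × Φ) × ℕ)) (hn : 0 < n)
    (hT : ∀ i, 0 < i → i < n → ∀ v < n, ∀ M a, (v, M, a) ∈ T i ↔ M.card ≤ B ∧ a ≤ B ∧ St par X w i (T (i + 1)) v M a)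
    (ht : t ≤ B) : (J par X w α β t n (T n) (· ≤ B) → ∃ z ∈ T 1, z.1 = 0 ∧ Ch α z.2.1 β ∧ z.2.2 ≤ t) ∧
      ((∃ z ∈ T 1, z.1 = 0 ∧ Ch α z.2.1 β ∧ z.2.2 ≤ t) → J par X w α β t n (T n) ⊤) := by
  have s : ∀ i, 0 < i → i < n → ∀ (a : ℕ → ℕ) d, ∑ v ∈ Finset.range i, (a + Pi.single (par i) d : ℕ → ℕ) v =
    ∑ v ∈ Finset.range i, a v + d := fun i a b _ _ => by simp [Finset.sum_add_distrib, hp i a b]
  refine ⟨fun h => ?_, fun ⟨⟨_, A, a⟩, b, e, f, g⟩ => ?_⟩
  · obtain ⟨M, a, c, k, -, b, e, f⟩ : J par X w α β t 1 (T 1) (· ≤ B) := by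
      refine Nat.decreasingInduction' (P := fun i => J par X w α β t i (T i) (· ≤ B))
        (fun i l m ⟨M, a, c, k, b, e, f, g⟩ => ?_) hn h
      obtain ⟨N, M', c', k', h1, h2, ⟨-, h3, h4, h5⟩ | ⟨h3, -⟩⟩ := cut (fun v a b => hp v a (by omega)) m f
      swap
      · omega
      rw [Finset.sum_range_succ] at g
      have q : c' + ∑ v ∈ Finset.range i, (a + Pi.single (par i) (a i + wt w N) : ℕ → ℕ) v ≤ t := by rw [s i m l]; omega
      refine ⟨M', _, c', k', h1.trans b, fun v o => (hT i m l v (by omega) _ _).2 ⟨(h4.card v).trans (h1.trans b),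
        (Finset.single_le_sum (fun _ _ => Nat.zero_le _) (Finset.mem_range.2 o)).trans (by omega), ?_⟩, h4, q⟩
      by_cases r : v = par i
      · exact .inr ⟨r, _, e v (by omega), _, e i (by omega), rfl, rfl, N, h3, by rw [h2 v o]; simp [r], by simp [r, add_assoc]⟩
      · exact .inl ⟨r, by simpa [h2 v o, r] using e v (by omega)⟩
    refine ⟨_, b 0 one_pos, rfl, ?_, by simp at f ⊢; omega⟩
    exact e.one.2
  subst e
  obtain ⟨k, e⟩ := f.tr (par := par) (X := X) (w := w) (i := 1) (v := 0)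
  refine Nat.le_induction (P := fun i _ => i ≤ n → J par X w α β t i (T i) ⊤) (fun _ => ⟨_, fun _ => a, 0, k, trivial,
    fun v h => by simpa [Nat.lt_one_iff.1 h] using b, e, by simpa using g⟩) (fun i m ih l => ?_) n hn le_rfl
  obtain ⟨M, a, c, k, -, e, f, g⟩ := ih (by omega)
  have q := hp i m l
  obtain ⟨⟨_, D, b⟩, y1, ⟨_, A, a'⟩, z1, rfl, z2, N, h1, h2, h3⟩ :=
    (((hT i m l _ (by omega) _ _).1 (e _ q)).2.2.resolve_left fun h => h.1 rfl).2
  dsimp only at *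
  rw [z2] at z1
  have r : M = Function.update M (par i) D + Pi.single (par i) N := by
    funext v; by_cases r : v = par i <;> simp [r, h2]
  have r' : a = Function.update a (par i) b + Pi.single (par i) (a' + wt w N) := by
    funext v; by_cases r : v = par i <;> simp [r, h3, add_assoc]
  obtain ⟨k, o⟩ := glue m h1 (r ▸ f.succ)
  refine ⟨_, Function.update (Function.update a (par i) b) i a', _, k, trivial, fun v x => ?_, o, ?_⟩
  · by_cases r : v = i
    · simpa [r, q.ne', (f.lt (fun v a b => hp v a (by omega)) m).2] using z1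
    by_cases r' : v = par i
    · simpa [r', q.ne] using y1
    · simpa [r, r'] using (((hT i m l _ (by omega) _ _).1 (e v (by omega))).2.2.resolve_right fun h => r' h.1).2
  · rw [r', s i m l] at g
    rw [Finset.sum_range_succ, Finset.sum_congr rfl fun v h => Function.update_of_ne (Finset.mem_range.1 h).ne _ _]
    simp; omega

end Pool.Agent.H.MP_ce2681_lc
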