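import Pool.Agent.Lib.lead.CXNP

namespace Pool.Agent.H.MP_ce2681_lc

/-- a tree on the vertices `0, …, E.length`: entry `v - 1` of `E` describes the edge from vertex `v ≥ 1` to its parent
(the parent, and the list of the presence bits of that edge at the times `0, …, p - 1` of a period) -/
abbrev PT' := List (ℕ × List Bool)

def pa (E : PT') (v : ℕ) : ℕ := (E.getD (v - 1) (0, [])).1
def pr (E : PT') (v a : ℕ) : Bool := (E.getD (v - 1) (0, [])).2.getD a false

/-- `Mov p E s u τ C`: starting at `s` at time `0`, the agent can be at `u` at time `τ` having visited the vertices in `C` -/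
inductive Mov (p : ℕ) (E : PT') (s : ℕ) : ℕ → ℕ → List ℕ → Prop
  | start : Mov p E s s 0 [s]
  | wait {u τ C} : Mov p E s u τ C → Mov p E s u (τ + 1) C
  | down {v τ C} : Mov p E s (pa E v) τ C → 0 < v → v ≤ E.length → pr E v (τ % p) → Mov p E s v (τ + 1) (v :: C)
  | up {v τ C} : Mov p E s v τ C → 0 < v → v ≤ E.length → pr E v (τ % p) → Mov p E s (pa E v) (τ + 1) (pa E v :: C)

/-- inputs: a periodic temporal tree of period `p` (parents come before their children, every edge is present at least
once per period) and a start vertex -/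
abbrev In (p : ℕ) := {a : PT' × ℕ // (∀ v, 0 < v → v ≤ a.1.length → pa a.1 v < v) ∧
  (∀ e ∈ a.1, e.2.length = p ∧ true ∈ e.2) ∧ a.2 ≤ a.1.length}

/-- the least time by which all vertices can be covered -/
noncomputable def coverTime (p : ℕ) (a : In p) : ℕ :=
  sInf {τ | ∃ u C, Mov p a.1.1 a.1.2 u τ C ∧ ∀ v ≤ a.1.1.length, v ∈ C}

end Pool.Agent.H.MP_ce2681_lc
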