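import Pool.Agent.H.MP_ce2681_lc.A
import Pool.Agent.H.MP_ce2681_lc.Defs

namespace Pool.Agent.H.MP_ce2681_lc

open Relation Finset

variable {p : ℕ} {E : PT'} {s u τ : ℕ} {C : List ℕ}

theorem Mov.mem (h : Mov p E s u τ C) : u ∈ C := by induction h <;> simp [*]
theorem Mov.add (h : Mov p E s u τ C) (k) : Mov p E s u (τ + k) C := by
  induction k with
  | zero => exact h
  | succ k ih => exact ih.wait

theorem bnd (h1 : ∀ v, 0 < v → v ≤ E.length → pa E v < v) (h2 : ∀ e ∈ E, e.2.length = p ∧ true ∈ e.2) (h3 : s ≤ E.length) :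
    ∃ u C, Mov p E s u ((E.length + 1) * (2 * p * E.length)) C ∧ ∀ v ≤ E.length, v ∈ C := by
  have k : ∀ v, 0 < v → v ≤ E.length → ∀ τ, ∃ k < p, pr E v ((τ + k) % p) := fun v a b τ => by
    obtain ⟨c, d⟩ := h2 _ (List.getElem_mem (n := v - 1) (by omega))
    obtain ⟨i, e, f⟩ := List.getElem_of_mem d
    have g := Nat.mod_lt τ (show p > 0 by omega)
    obtain ⟨k, m, n⟩ : ∃ k < p, (τ + k) % p = i := by
      by_cases m : τ % p ≤ i
      · exact ⟨i - τ % p, by omega, by rw [← Nat.mod_add_mod, Nat.add_sub_cancel' m, Nat.mod_eq_of_lt (c ▸ e)]⟩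
      · exact ⟨i + p - τ % p, by omega, by
          rw [← Nat.mod_add_mod, Nat.add_sub_cancel' (by omega), Nat.add_mod_right, Nat.mod_eq_of_lt (c ▸ e)]⟩
    exact ⟨k, m, by rw [n, pr, List.getD_eq_getElem _ _ (show v - 1 < _ by omega), List.getD_eq_getElem _ _ e, f]⟩
  have up : ∀ u ≤ E.length, ∀ τ C, Mov p E s u τ C → ∃ σ ≤ τ + p * u, ∃ D, C ⊆ D ∧ Mov p E s 0 σ D := fun u => by
    induction u using Nat.strong_induction_on with
    | _ u ih =>
    intro a τ C h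
    rcases u.eq_zero_or_pos with rfl | b
    · exact ⟨τ, le_rfl, C, List.Subset.refl _, h⟩
    obtain ⟨k, c, d⟩ := k u b a τ
    have := h1 u b a
    obtain ⟨σ, e, D, f, g⟩ := ih _ this (by omega) _ _ ((h.add k).up b a d)
    exact ⟨σ, by nlinarith, D, List.Subset.trans (List.subset_cons_self ..) f, g⟩
  have dn : ∀ u ≤ E.length, ∀ τ C, Mov p E s 0 τ C → ∃ σ ≤ τ + p * u, ∃ D, C ⊆ D ∧ Mov p E s u σ D := fun u => by
    induction u using Nat.strong_induction_on with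
    | _ u ih =>
    intro a τ C h
    rcases u.eq_zero_or_pos with rfl | b
    · exact ⟨τ, le_rfl, C, List.Subset.refl _, h⟩
    have := h1 u b a
    obtain ⟨σ, e, D, f, g⟩ := ih _ this (by omega) _ _ h
    obtain ⟨k, c, d⟩ := k u b a σ
    exact ⟨_, by nlinarith, _, List.Subset.trans f (List.subset_cons_self ..), (g.add k).down b a d⟩
  have : ∀ i ≤ E.length + 1, ∃ u ≤ E.length, ∃ C, Mov p E s u (i * (2 * p * E.length)) C ∧ ∀ v < i, v ∈ C := fun i => by
    induction i with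
    | zero => exact fun _ => ⟨s, h3, _, by simpa using .start, by simp⟩
    | succ i ih =>
      intro a
      obtain ⟨u, b, C, c, d⟩ := ih (by omega)
      obtain ⟨σ, e, D, f, g⟩ := up u b _ _ c
      obtain ⟨ρ, j, F, l, m⟩ := dn i (by omega) _ _ g
      obtain ⟨k, n⟩ := Nat.exists_eq_add_of_le (show ρ ≤ (i + 1) * (2 * p * E.length) by
        have := Nat.mul_le_mul_left p b; have := Nat.mul_le_mul_left p (show i ≤ E.length by omega); nlinarith)
      exact ⟨i, by omega, F, n ▸ m.add k, fun v o => (Nat.lt_succ_iff_lt_or_eq.1 o).elim (fun o => l (f (d v o))) (· ▸ m.mem)⟩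
  obtain ⟨u, -, C, a, b⟩ := this _ le_rfl
  exact ⟨u, C, a, fun v c => b v (by omega)⟩

def Xc (E : PT') (v : ℕ) (φ ψ : Option (ZMod p)) : Prop :=
  φ = none ∧ ψ = none ∨ ∃ a, φ = some a ∧ ψ = some (a + 1) ∧ pr E v a.val
def wc (φ : Option (ZMod p)) : ℕ := if φ = none then 0 else 1
def Va (s v : ℕ) (l : Option (ZMod p) × Option (ZMod p)) : Prop :=
  l = (none, some 0) ∧ v = s ∨ ∃ a, l.1 = some a ∧ (l.2 = none ∨ l.2 = some a ∨ l.2 = some (a + 1))
def lc (M : Multiset (Option (ZMod p) × Option (ZMod p))) : ℕ := M.countP fun l => l.1 ≠ l.2 ∧ l.1 ≠ none ∧ l.2 ≠ none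
def Ini (s v : ℕ) (M : Multiset (Option (ZMod p) × Option (ZMod p))) (a : ℕ) : Prop :=
  M ≠ 0 ∧ (∀ l ∈ M, Va s v l) ∧ M.count (none, some 0) ≤ 1 ∧ a = lc M

theorem lc_one (l : Option (ZMod p) × Option (ZMod p)) : lc {l} = if l.1 ≠ l.2 ∧ l.1 ≠ none ∧ l.2 ≠ none then 1 else 0 := by
  simp [lc, Multiset.countP_eq_card_filter, Multiset.filter_singleton, apply_ite Multiset.card]
theorem lc_zero : lc (p := p) 0 = 0 := rfl

theorem lc_add {n v} (h : v < n) (M : ℕ → Multiset (Option (ZMod p) × Option (ZMod p))) (l) :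
    ∑ z ∈ range n, lc ((M + Pi.single v {l} : ℕ → _) z) = ∑ z ∈ range n, lc (M z) + lc {l} := by
  simp only [lc, Pi.add_apply, Multiset.countP_add, sum_add_distrib, add_right_inj]
  rw [sum_eq_single_of_mem v (mem_range.2 h) fun z _ e => by simp [e], Pi.single_eq_same]

variable (hp : ∀ v, 0 < v → v < E.length + 1 → pa E v < v) [NeZero p]
include hp

theorem snd {φ : Option (ZMod p)} {M c k} (h : Tr (pa E) (Xc E) wc (E.length + 1) 0 none u φ M c k) (h1 : ∀ v ≤ E.length, ∀ l ∈ M v, Va s v l)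
    (h2 : (M s).count (none, some 0) ≤ 1) : M = 0 ∧ φ = none ∨ ∃ τ y C, Mov p E s y τ C ∧
      τ ≤ c + ∑ z ∈ range (E.length + 1), lc (M z) ∧ (∀ v, M v ≠ 0 → v ∈ C) ∧ (none, some 0) ∈ M s ∧
      ∀ a, φ = some a → y = u ∧ a = τ := by
  induction h with
  | nil => exact .inl ⟨rfl, rfl⟩
  | @loop v φ M c k ψ h ih =>
    have q := (h.lt hp (by omega)).1
    rw [lc_add q]
    have ih := ih (fun v a l b => h1 v a l (Multiset.mem_add.2 (.inl b))) ((Multiset.count_le_of_le _ (Multiset.le_add_right ..)).trans h2)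
    have m : ∀ C : List ℕ, v ∈ C → (∀ z, M z ≠ 0 → z ∈ C) → ∀ z, (M + Pi.single v {(φ, ψ)} : ℕ → _) z ≠ 0 → z ∈ C := fun C a b z e => by
      by_cases f : z = v
      exacts [f ▸ a, b z (by simpa [f] using e)]
    rcases h1 v (by omega) (φ, ψ) (by simp) with ⟨e, rfl⟩ | ⟨a, rfl, e⟩
    · cases e
      rcases ih with ⟨rfl, -⟩ | ⟨_, _, _, -, -, -, e, -⟩
      · exact .inr ⟨0, _, _, .start, by simp, m _ (by simp) (by simp), by simp, by simp⟩
      · simp [e] at h2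
    obtain ⟨τ, y, C, i1, i2, i3, i4, i5⟩ := ih.resolve_left (by simp)
    obtain ⟨rfl, rfl⟩ := i5 _ rfl
    by_cases f : ψ = none ∨ ψ = some (τ : ZMod p)
    · exact .inr ⟨τ, _, C, i1, by omega, m _ i1.mem i3, Multiset.mem_add.2 (.inl i4), by rcases f with rfl | rfl <;> simp⟩
    · obtain rfl : ψ = some ((τ : ZMod p) + 1) := by tauto
      exact .inr ⟨_, _, C, i1.wait, by rw [lc_one, if_pos ⟨fun e => f (.inr e.symm), by simp⟩]; omega, m _ i1.mem i3, Multiset.mem_add.2 (.inl i4), by simp⟩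
  | down _ a b d ih =>
    rcases d with ⟨rfl, rfl⟩ | ⟨x, rfl, rfl, d⟩
    · exact (ih h1 h2).imp id fun ⟨τ, y, C, i1, i2, i3, i4, _⟩ => ⟨τ, y, C, i1, by omega, i3, i4, by simp⟩
    obtain ⟨τ, y, C, i1, i2, i3, i4, i5⟩ := (ih h1 h2).resolve_left (by simp)
    obtain ⟨rfl, rfl⟩ := i5 _ rfl
    exact .inr ⟨_, _, _, i1.down a (by omega) (ZMod.val_natCast p τ ▸ d), by simp [wc]; omega,
      fun v e => List.mem_cons_of_mem _ (i3 v e), i4, by simp⟩
  | up _ a b d ih =>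
    rcases d with ⟨rfl, rfl⟩ | ⟨x, rfl, rfl, d⟩
    · exact (ih h1 h2).imp id fun ⟨τ, y, C, i1, i2, i3, i4, _⟩ => ⟨τ, y, C, i1, by omega, i3, i4, by simp⟩
    obtain ⟨τ, y, C, i1, i2, i3, i4, i5⟩ := (ih h1 h2).resolve_left (by simp)
    obtain ⟨rfl, rfl⟩ := i5 _ rfl
    exact .inr ⟨_, _, _, i1.up a (by omega) (ZMod.val_natCast p τ ▸ d), by simp [wc]; omega,
      fun v e => List.mem_cons_of_mem _ (i3 v e), i4, by simp⟩

theorem star (v) (h : v < E.length + 1) : (∃ k ≤ v, Tr (pa E) (Xc (p := p) E) wc (E.length + 1) 0 none v none 0 0 k) ∧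
    ∃ k ≤ v, Tr (pa E) (Xc (p := p) E) wc (E.length + 1) v none 0 none 0 0 k := by
  induction v using Nat.strong_induction_on with
  | _ v ih =>
  rcases v.eq_zero_or_pos with rfl | b
  · exact ⟨⟨0, le_rfl, .nil⟩, 0, le_rfl, .nil⟩
  have := hp v b h
  obtain ⟨⟨k, c, d⟩, m, e, f⟩ := ih _ this (by omega)
  exact ⟨⟨_, by omega, d.down b h (.inl ⟨rfl, rfl⟩)⟩, _, by omega, (Tr.nil.up b h (.inl ⟨rfl, rfl⟩)).trans f⟩

theorem cmp (hs : s ≤ E.length) (h : Mov p E s u τ C) : ∃ M c k, Tr (pa E) (Xc E) wc (E.length + 1) 0 none u (some (τ : ZMod p)) M c k ∧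
    (∀ v, (∀ l ∈ M v, Va s v l) ∧ (M v).count (none, some 0) ≤ 1) ∧ (∀ v ∈ C, M v ≠ 0) ∧
    c + ∑ z ∈ range (E.length + 1), lc (M z) ≤ τ ∧ k ≤ E.length + 1 + 2 * τ := by
  have q : ∀ (M : ℕ → Multiset (Option (ZMod p) × Option (ZMod p))) v (a : ZMod p) ψ, ψ = some a ∨ ψ = some (a + 1) →
      (∀ v, (∀ l ∈ M v, Va s v l) ∧ (M v).count (none, some 0) ≤ 1) →
      ∀ z, (∀ l ∈ (M + Pi.single v {(some a, ψ)} : ℕ → _) z, Va s z l) ∧
        ((M + Pi.single v {(some a, ψ)} : ℕ → _) z).count (none, some 0) ≤ 1 := fun M v a ψ e h z => by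
    by_cases f : z = v
    · subst f
      refine ⟨fun l g => (Multiset.mem_add.1 g).elim ((h z).1 l) fun g => .inr ⟨a, ?_⟩, by simpa using (h z).2⟩
      obtain rfl : l = (some a, ψ) := by simpa using g
      exact ⟨rfl, .inr e⟩
    · simpa [f] using h z
  induction h with
  | start =>
    obtain ⟨k, a, b⟩ := (star (p := p) hp s (by omega)).1
    refine ⟨_, _, _, b.loop _, fun v => ?_, by simp, by rw [lc_add (by omega)]; simp [lc_one, lc_zero], by omega⟩
    by_cases f : v = s <;> simp [f, Va]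
  | wait _ ih =>
    obtain ⟨M, c, k, a, b, d, e, f⟩ := ih
    refine ⟨_, _, _, a.loop _, q _ _ _ _ (.inr (by simp)) b, fun v g => by simp [d v g], ?_, by omega⟩
    rw [lc_add (a.lt hp (by omega)).1]
    exact (add_assoc ..).ge.trans (add_le_add e (Multiset.countP_le_card ..))
  | down _ x y z ih =>
    obtain ⟨M, c, k, a, b, d, e, f⟩ := ih
    refine ⟨_, _, _, (a.down x (by omega) (.inr ⟨_, rfl, by simp, ZMod.val_natCast p _ ▸ z⟩)).loop _, q _ _ _ _ (.inl rfl) b,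
      List.forall_mem_cons.2 ⟨by simp, fun v g => by simp [d v g]⟩, ?_, by omega⟩
    rw [lc_add (by omega)]; simp [lc_one, wc]; omega
  | up _ x y z ih =>
    obtain ⟨M, c, k, a, b, d, e, f⟩ := ih
    refine ⟨_, _, _, (a.up x (by omega) (.inr ⟨_, rfl, by simp, ZMod.val_natCast p _ ▸ z⟩)).loop _, q _ _ _ _ (.inl rfl) b,
      List.forall_mem_cons.2 ⟨by simp, fun v g => by simp [d v g]⟩, ?_, by omega⟩
    rw [lc_add ((hp _ x (by omega)).trans (by omega))]; simp [lc_one, wc]; omega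

theorem key (hs : s ≤ E.length) {t B} (hB : 2 * E.length + 2 * t + 2 ≤ B) (T : ℕ → Set (ℕ × Multiset (Option (ZMod p) × Option (ZMod p)) × ℕ))
    (h0 : ∀ v ≤ E.length, ∀ M a, (v, M, a) ∈ T (E.length + 1) ↔ M.card ≤ B ∧ a ≤ B ∧ Ini s v M a)
    (hT : ∀ i, 0 < i → i < E.length + 1 → ∀ v < E.length + 1, ∀ M a, (v, M, a) ∈ T i ↔ M.card ≤ B ∧ a ≤ B ∧
      St (pa E) (Xc E) wc i (T (i + 1)) v M a) :
    (∃ u C, Mov p E s u t C ∧ ∀ v ≤ E.length, v ∈ C) ↔ ∃ z ∈ T 1, z.1 = 0 ∧ Ch none z.2.1 none ∧ z.2.2 ≤ t := by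
  obtain ⟨d1, d2⟩ := dp (α := none) (β := none) hp T (by omega) hT (show t ≤ B by omega)
  refine ⟨fun ⟨u, C, a, b⟩ => d1 ?_, fun h => ?_⟩
  · obtain ⟨M, c, k, e, f, g, i, j⟩ := cmp hp hs a
    have l := (e.lt hp (by omega)).1
    obtain ⟨m, n, o⟩ := (star (p := p) hp u l).2
    have r := (e.loop none).trans o
    rw [add_zero] at r
    have x : c + ∑ z ∈ range (E.length + 1), lc ((M + Pi.single u {(some (t : ZMod p), none)} : ℕ → _) z) ≤ t := by
      rw [lc_add l]; simpa [lc_one] using i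
    refine ⟨_, fun v => lc _, _, _, by omega, fun v y => (h0 v (by omega) _ _).2 ⟨(r.card v).trans (by omega),
      (single_le_sum (f := fun z => lc _) (fun _ _ => Nat.zero_le _) (mem_range.2 y)).trans (by omega),
      by simp [g v (b v (by omega))], ?_, ?_, rfl⟩, r, x⟩ <;> by_cases z : v = u
    · subst z
      refine fun l g => (Multiset.mem_add.1 g).elim ((f v).1 l) fun g => .inr ⟨t, ?_⟩
      obtain rfl : l = (some (t : ZMod p), none) := by simpa using g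
      exact ⟨rfl, .inl rfl⟩
    · simpa [z] using (f v).1
    · simpa [z] using (f u).2
    · simpa [z] using (f v).2
  · obtain ⟨M, a, c, k, -, b, e, f⟩ := d2 h
    have g := fun v y => ((h0 v y _ _).1 (b v (by omega))).2.2
    obtain ⟨τ, y, C, i1, i2, i3, -⟩ := (snd hp e (fun v y => (g v y).2.1) (g s hs).2.2.1).resolve_left
      fun h => (g s hs).1 (by simp [h.1])
    obtain ⟨k, rfl⟩ := Nat.exists_eq_add_of_le (i2.trans ((congrArg _ (sum_congr rfl fun v y =>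
      (g v (Nat.lt_succ_iff.1 (mem_range.1 y))).2.2.2.symm)).trans_le f))
    exact ⟨y, C, i1.add k, fun v z => i3 v (g v z).1⟩

end Pool.Agent.H.MP_ce2681_lc
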