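import Pool.Agent.H.MP_ce2681_lc.B
import Pool.Agent.H.MP_74cd3a_lc.D

namespace Pool.Agent.H.MP_ce2681_lc

open Relation Classical Pool.Agent.Lib.CX Pool.Agent.H.MP_74cd3a_lc

theorem rt_down {β : Type} {E : β → β → Prop} {P : β → Prop} (h : ∀ a b, E a b → P b → P a) {a b} (e : ReflTransGen E a b)
    (k : P b) : ReflTransGen (fun u v => P u ∧ P v ∧ E u v) a b := by
  induction e with
  | refl => exact .refl
  | tail _ c ih => exact (ih (h _ _ c k)).tail ⟨h _ _ c k, k, c⟩

section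
variable {α β γ : Type} [Enc α] [Enc β] [Enc γ] [Fintype β]

theorem pt_fin (f : β → γ) : PT f := by
  rcases isEmpty_or_nonempty β with _ | ⟨⟨b⟩⟩
  · exact (PT.const ()).cast isEmptyElim
  refine PT.congr (g := fun a => ((((Finset.univ.toList.map fun b => (b, f b)).find? (·.1 = a)).map (·.2)).getD (f b)))
    (by fun_prop) fun a => ?_
  cases h : (Finset.univ.toList.map fun b => (b, f b)).find? (·.1 = a) with
  | none => simpa using List.find?_eq_none.1 h (a, f a)
  | some x =>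
    obtain ⟨c, -, rfl⟩ := List.mem_map.1 (List.mem_of_find?_eq_some h)
    obtain rfl : c = a := by simpa using List.find?_some h
    rfl

theorem i_exf {P : α → β → Prop} (h : InP fun p : α × β => P p.1 p.2) : InP fun a => ∃ x, P a x :=
  (i_ex h (.const Finset.univ.toList)).of_iff (by simp)

noncomputable def cl (M : Multiset β) : List β := Finset.univ.toList.flatMap fun b => List.replicate (M.count b) b
omit [Enc β] in
theorem cl_coe (M : Multiset β) : (cl M : Multiset β) = M := by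
  ext b; simp [cl, List.count_flatMap, List.count_replicate, Finset.sum_toList, Function.comp_def]
noncomputable instance : Enc (Multiset β) := ⟨fun M => Enc.tr (cl M), Enc.inj.comp (Function.LeftInverse.injective cl_coe)⟩
noncomputable def UM (β : Type) [Fintype β] (B : ℕ) : List (Multiset β) := (allL (Fintype.card β) (List.range (B + 1))).map fun v =>
  ((Finset.univ.toList.zip v).flatMap fun x => List.replicate (min x.2 B) x.1 : List β)
omit [Enc β] in
theorem mem_UM {B} {M : Multiset β} (h : M.card ≤ B) : M ∈ UM β B :=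
  List.mem_map.2 ⟨Finset.univ.toList.map (M.count ·), mem_allL.2 ⟨by simp, List.forall_mem_map.2 fun b _ =>
    List.mem_range.2 (Nat.lt_succ_of_le ((M.count_le_card b).trans h))⟩, by
      rw [← List.map_prod_left_eq_zip, List.flatMap_map]
      simp only [min_eq_left ((M.count_le_card _).trans h)]; exact cl_coe M⟩

variable {M N : α → Multiset β}
theorem pt_cl (h : PT M) : PT fun a => cl (M a) := h.cast fun _ => rfl
@[fun_prop] theorem pt_coe {l : α → List β} (h : PT l) : PT fun a => (l a : Multiset β) :=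
  PT.cast (g := fun a => Finset.univ.toList.flatMap fun b => List.replicate ((l a).count b) b) (by fun_prop) fun a => by
    show Enc.tr (cl (l a : Multiset β)) = _; simp [cl]
@[fun_prop] theorem pt_add (h : PT M) (g : PT N) : PT fun a => M a + N a :=
  (pt_coe ((pt_cl h).append (pt_cl g))).congr fun a => by rw [← Multiset.coe_add, cl_coe, cl_coe]
@[fun_prop] theorem pt_one {x : α → β} (h : PT x) : PT fun a => ({x a} : Multiset β) := pt_coe (h.cons (.const []))
@[fun_prop] theorem pt_card (h : PT M) : PT fun a => (M a).card :=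
  (pt_cl h).length.congr fun a => by rw [← Multiset.coe_card, cl_coe]
@[fun_prop] theorem pb_card (h : PT M) : PB fun a => (M a).card :=
  (PB.length (pt_cl h)).mono fun a => by rw [← Multiset.coe_card, cl_coe]
theorem pt_sum (f : β → ℕ) (h : PT M) : PT fun a => ((M a).map f).sum :=
  (PT.map (F := fun _ => f) ((pt_fin f).comp .snd') (pt_cl h)).sum.congr fun a => by
    rw [← Multiset.sum_coe, ← Multiset.map_coe, cl_coe]
theorem pt_cnt (P : β → Prop) [DecidablePred P] (h : PT M) : PT fun a => (M a).countP P :=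
  (PT.countP (F := fun _ b => P b) ((pt_fin fun b => decide (P b)).comp .snd') (pt_cl h)).congr fun a => by
    rw [← Multiset.coe_countP, cl_coe]
theorem pt' {p : α → Prop} {i : ∀ a, Decidable (p a)} (h : InP p) : PT fun a => @decide (p a) (i a) := (pt h).congr fun _ => by congr
@[fun_prop] theorem pt_UM {B : α → ℕ} (h : PT B) (g : PB B) : PT fun a => UM β (B a) := by unfold UM; fun_prop
theorem i_exM {P : α → Multiset β → Prop} {B : α → ℕ} (h : InP fun p : α × Multiset β => P p.1 p.2) (h1 : PT B) (h2 : PB B)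
    (e : ∀ a M, P a M → M.card ≤ B a) : InP fun a => ∃ M, P a M :=
  (i_ex h (pt_UM h1 h2)).of_iff fun a => ⟨fun ⟨M, k⟩ => ⟨M, mem_UM (e a M k), k⟩, fun ⟨M, _, k⟩ => ⟨M, k⟩⟩
theorem i_allM {P : α → β → Prop} (h : InP fun p : α × β => P p.1 p.2) (g : PT M) : InP fun a => ∀ x ∈ M a, P a x :=
  (i_all h (pt_cl g)).of_iff fun a => by simp only [← Multiset.mem_coe, cl_coe]
theorem i_nle {f g : α → ℕ} (h : PT f) (k : PT g) : InP fun a => f a ≤ g a := .of_decide (i := fun _ => inferInstance) (h.decide_le k)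

theorem i_Ch {φ ψ : α → β} {A : α → Multiset (β × β)} (h1 : PT φ) (h2 : PT A) (h3 : PT ψ) : InP fun a => Ch (φ a) (A a) (ψ a) :=
  (i_rt (E := fun _ => Cs) (L := fun a => UM _ (A a).card ×ˢ Finset.univ.toList) (s := fun a => (0, φ a)) (t := fun a => (A a, ψ a))
    (i_eq (by fun_prop) (by fun_prop)) (by fun_prop) (by fun_prop) (by fun_prop)).of_iff fun a =>
      ⟨fun h => ReflTransGen.mono (fun ⟨_, _⟩ ⟨_, _⟩ k => ⟨by simpa using mem_UM k.1, by simpa using mem_UM k.2.1, k.2.2⟩) _ _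
        (rt_down (P := fun u => u.1.card ≤ (A a).card) (fun u v e k => by rw [e] at k; simp at k; omega) h le_rfl),
      ReflTransGen.mono (fun _ _ k => k.2.2) _ _⟩

theorem i_Ex {X : α → ℕ → β → β → Prop} {j : α → ℕ} {A N : α → Multiset (β × β)}
    (hX : InP fun p : α × ℕ × β × β => X p.1 p.2.1 p.2.2.1 p.2.2.2) (h1 : PT j) (h2 : PT A) (h3 : PT N) :
    InP fun a => Ex (X a) (j a) (A a) (N a) :=
  (i_rt (E := fun a => Es (X a) (j a)) (L := fun a => UM _ (A a).card ×ˢ UM _ (N a).card) (s := fun a => (0, 0))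
    (t := fun a => (A a, N a)) (i_exf (i_exf (i_exf (i_exf (i_and
      (hX.red ⟨fun p => (p.1.1.1.1.1, j p.1.1.1.1.1, p.1.1.1.2, p.1.1.2), by fun_prop, fun _ => .rfl⟩) (i_and
      (hX.red ⟨fun p => (p.1.1.1.1.1, j p.1.1.1.1.1, p.1.2, p.2), by fun_prop, fun _ => .rfl⟩) (i_and (i_eq (by fun_prop) (by fun_prop))
      (i_exM (B := fun p => p.1.1.1.1.2.2.1.card) (i_and (i_Ch (by fun_prop) (by fun_prop) (by fun_prop))
        (i_eq (by fun_prop) (by fun_prop))) (by fun_prop) (by fun_prop) fun _ _ h => by simp [h.2]))))))))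
      (by fun_prop) (by fun_prop) (by fun_prop)).of_iff fun a =>
      ⟨fun h => ReflTransGen.mono (fun ⟨_, _⟩ ⟨_, _⟩ k => ⟨List.mem_product.2 (k.1.imp mem_UM mem_UM),
        List.mem_product.2 (k.2.1.imp mem_UM mem_UM), k.2.2⟩) _ _
        (rt_down (P := fun u => u.1.card ≤ (A a).card ∧ u.2.card ≤ (N a).card) (fun u v ⟨_, _, _, _, _, _, e, _, _, f⟩ k => by
          rw [e, f] at k; simp at k; omega) h ⟨le_rfl, le_rfl⟩), ReflTransGen.mono (fun _ _ k => k.2.2) _ _⟩
end

theorem main (p : ℕ) [NeZero p] : PT (coverTime p) := by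
  let _ : Enc (ZMod p) := ⟨fun i => Enc.tr i.val, Enc.inj.comp (ZMod.val_injective p)⟩
  have h0 : PT fun a : In p => a.1 := PT.val PT.id
  have h1 : PT fun a : ZMod p => a.val := pt_fin _
  have h2 : PT fun a : ZMod p => a + 1 := pt_fin _
  obtain ⟨C, c1, c2, c3⟩ : ∃ C : In p → ℕ, PT C ∧ PB C ∧ ∀ a, C a = (a.1.1.length + 1) * (2 * p * a.1.1.length) :=
    ⟨_, by fun_prop, by fun_prop, fun _ => rfl⟩
  obtain ⟨B, b1, b2, b3⟩ : ∃ B : In p → ℕ, PT B ∧ PB B ∧ ∀ a, B a = 2 * a.1.1.length + 2 * C a + 2 :=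
    ⟨_, by fun_prop, by fun_prop, fun _ => rfl⟩
  obtain ⟨U, u1, u2⟩ : ∃ U : In p → List (ℕ × Multiset (Option (ZMod p) × Option (ZMod p)) × ℕ), PT U ∧
      ∀ a v M c, v ≤ a.1.1.length → M.card ≤ B a → c ≤ B a → (v, M, c) ∈ U a :=
    ⟨fun a => List.range (a.1.1.length + 1) ×ˢ UM _ (B a) ×ˢ List.range (B a + 1), by fun_prop, fun a v M c x y z => by
      simp [mem_UM y, Nat.lt_succ_iff, x, z]⟩
  have hX : InP fun q : PT' × ℕ × Option (ZMod p) × Option (ZMod p) => Xc q.1 q.2.1 q.2.2.1 q.2.2.2 := by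
    unfold Xc pr
    repeat' first | apply i_and | apply i_or | apply i_exf | apply i_eq | fun_prop
  have hI : InP fun q : In p × ℕ × Multiset (Option (ZMod p) × Option (ZMod p)) × ℕ =>
      q.2.2.1.card ≤ B q.1 ∧ q.2.2.2 ≤ B q.1 ∧ Ini q.1.1.2 q.2.1 q.2.2.1 q.2.2.2 := by
    unfold Ini Va lc Multiset.count
    repeat' first | apply i_and | apply i_or | apply i_not | apply i_allM | apply i_exf | apply i_eq | apply i_nle | apply pt_cnt | fun_prop
  have hS : InP fun q : (In p × List (ℕ × Multiset (Option (ZMod p) × Option (ZMod p)) × ℕ) × ℕ) × ℕ ×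
      Multiset (Option (ZMod p) × Option (ZMod p)) × ℕ => q.2.2.1.card ≤ B q.1.1 ∧ q.2.2.2 ≤ B q.1.1 ∧
      St (pa q.1.1.1.1) (Xc q.1.1.1.1) wc (q.1.1.1.1.length - q.1.2.2) {z | z ∈ q.1.2.1} q.2.1 q.2.2.1 q.2.2.2 := by
    unfold St wt pa
    refine i_and ?_ (i_and ?_ (i_or (i_and (i_not ?_) (i_mem ?_ ?_)) (i_and ?_ (i_ex (i_ex (i_and ?_ (i_and ?_
      (i_exM (B := fun q => q.1.1.2.2.1.card) (i_and (i_Ex (hX.red ⟨fun q => (q.1.1.1.1.1.1.1.1, q.2), ?_, fun _ => .rfl⟩) ?_ ?_ ?_)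
        (i_and ?_ (i_eq ?_ (PT.add ?_ (pt_sum _ ?_))))) ?_ ?_ fun _ _ h => by simp [h.2.1]))) ?_) ?_)))) <;>
    repeat' first | apply i_eq | apply i_nle | fun_prop
  obtain ⟨F, f1, f2⟩ : ∃ F : In p → List (ℕ × Multiset (Option (ZMod p) × Option (ZMod p)) × ℕ) → ℕ → List _,
      (PT fun q : In p × _ × ℕ => F q.1 q.2.1 q.2.2) ∧ ∀ a T k, F a T k = (U a).filter fun z => z.2.1.card ≤ B a ∧ z.2.2 ≤ B a ∧
        St (pa a.1.1) (Xc a.1.1) wc (a.1.1.length - k) {z | z ∈ T} z.1 z.2.1 z.2.2 :=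
    ⟨_, (pt' hS).filter (u1.comp .fst'), fun _ _ _ => rfl⟩
  obtain ⟨I, i1, i2⟩ : ∃ I : In p → List _, PT I ∧ ∀ a, I a = (U a).filter fun z => z.2.1.card ≤ B a ∧ z.2.2 ≤ B a ∧
    Ini a.1.2 z.1 z.2.1 z.2.2 := ⟨_, (pt' hI).filter u1, fun _ => rfl⟩
  have hT : PT fun a => (List.range a.1.1.length).foldl (F a) (I a) :=
    PT.foldl (B := fun a => size (U a)) f1 i1 (by fun_prop) (by fun_prop) fun a k => size_sublist (by
      rcases List.eq_nil_or_concat' ((List.range a.1.1.length).take k) with e | ⟨_, _, e⟩ <;> simp [e, f2, i2])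
  have hQ : InP fun q : In p × ℕ => ∃ z ∈ (List.range q.1.1.1.length).foldl (F q.1) (I q.1), z.1 = 0 ∧ Ch none z.2.1 none ∧
      z.2.2 ≤ q.2 := by
    refine i_ex (i_and (i_eq ?_ ?_) (i_and (i_Ch ?_ ?_ ?_) (i_nle ?_ ?_))) (hT.comp .fst') <;> fun_prop
  refine (PT.findIdx (F := fun a t => ∃ z ∈ (List.range a.1.1.length).foldl (F a) (I a), z.1 = 0 ∧ Ch none z.2.1 none ∧ z.2.2 ≤ t)
    (l := fun a => List.range (C a + 1)) (pt' hQ) (by fun_prop)).congr fun a => ?_
  have k : ∀ t ≤ C a, (∃ u D, Mov p a.1.1 a.1.2 u t D ∧ ∀ v ≤ a.1.1.length, v ∈ D) ↔ ∃ z ∈ (List.range a.1.1.length).foldl (F a) (I a),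
      z.1 = 0 ∧ Ch none z.2.1 none ∧ z.2.2 ≤ t := fun t h =>
    key (fun v x y => a.2.1 v x (by omega)) a.2.2.2 (B := B a) (by rw [b3]; omega)
      (fun i => {z | z ∈ (List.range (a.1.1.length + 1 - i)).foldl (F a) (I a)})
      (fun v x M c => by simpa [i2] using fun y z _ => u2 a v M c x y z) fun i x y v z M c => by
        rw [show a.1.1.length + 1 - i = a.1.1.length - i + 1 by omega, List.range_succ, List.foldl_append, List.foldl_cons,
          List.foldl_nil, f2, Nat.sub_sub_self (by omega)]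
        simpa using fun x y _ => u2 a v M c (by omega) x y
  have b := bnd a.2.1 a.2.2.1 a.2.2.2
  rw [← c3] at b
  have l : coverTime p a ≤ C a := Nat.sInf_le b
  refine ((List.findIdx_eq (by simpa [Nat.lt_succ_iff])).2 ⟨?_, fun j h => ?_⟩).symm
  · simpa only [List.getElem_range, decide_eq_true_eq] using (k _ l).1 (Nat.sInf_mem
      (s := {τ | ∃ u C, Mov p a.1.1 a.1.2 u τ C ∧ ∀ v ≤ a.1.1.length, v ∈ C}) ⟨_, b⟩)
  · simpa only [List.getElem_range, decide_eq_true_eq, decide_eq_false_iff_not] using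
      fun e => Nat.notMem_of_lt_sInf h ((k j (by omega)).2 e)

end Pool.Agent.H.MP_ce2681_lc
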